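import Mathlib

/-!
# Greedy packing in ideal set covering systems

`S i` (for `i : ι`) are the rows, `Bs` a finite family of covers (finite sets of columns), and
`H` is the packing property (the min-max relation).
-/

set_option autoImplicit false
set_option linter.unusedSectionVars false
set_option linter.unusedVariables false

namespace Pool.Agent.Dyadic85

open Finset

/-- rationals with denominators in `N` -/
def Rat' (N : Submonoid ℕ) : Set ℝ := {r | ∃ (k : ℤ) (d : ℕ), d ∈ N ∧ 0 < d ∧ r = (k : ℝ) / (d : ℝ)}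

lemma Rat'.int (N : Submonoid ℕ) (k : ℤ) : (k : ℝ) ∈ Rat' N :=
  ⟨k, 1, N.one_mem, one_pos, by simp⟩

lemma Rat'.zero (N : Submonoid ℕ) : (0 : ℝ) ∈ Rat' N := by
  simpa using Rat'.int N 0

lemma Rat'.add {N : Submonoid ℕ} {a b : ℝ} (ha : a ∈ Rat' N) (hb : b ∈ Rat' N) : a + b ∈ Rat' N := by
  obtain ⟨k, d, hd, hd0, rfl⟩ := ha
  obtain ⟨k', d', hd', hd0', rfl⟩ := hb
  refine ⟨k * d' + k' * d, d * d', N.mul_mem hd hd', Nat.mul_pos hd0 hd0', ?_⟩
  have h1 : (d : ℝ) ≠ 0 := by positivity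
  have h2 : (d' : ℝ) ≠ 0 := by positivity
  push_cast
  field_simp

lemma Rat'.neg {N : Submonoid ℕ} {a : ℝ} (ha : a ∈ Rat' N) : -a ∈ Rat' N := by
  obtain ⟨k, d, hd, hd0, rfl⟩ := ha
  exact ⟨-k, d, hd, hd0, by push_cast; ring⟩

lemma Rat'.sub {N : Submonoid ℕ} {a b : ℝ} (ha : a ∈ Rat' N) (hb : b ∈ Rat' N) : a - b ∈ Rat' N := by
  rw [sub_eq_add_neg]; exact Rat'.add ha (Rat'.neg hb)

lemma Rat'.sum {N : Submonoid ℕ} {α : Type*} (s : Finset α) (f : α → ℝ) (h : ∀ i ∈ s, f i ∈ Rat' N) :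
    ∑ i ∈ s, f i ∈ Rat' N := by
  classical
  induction s using Finset.induction_on with
  | empty => simpa using Rat'.zero N
  | insert a s ha ih =>
    rw [sum_insert ha]
    exact Rat'.add (h a (mem_insert_self _ _)) (ih fun i hi => h i (mem_insert_of_mem hi))

lemma Rat'.div_nat {N : Submonoid ℕ} {a : ℝ} (ha : a ∈ Rat' N) {k : ℕ} (hk : k ∈ N) (hk0 : 0 < k) :
    a / (k : ℝ) ∈ Rat' N := by
  obtain ⟨m, d, hd, hd0, rfl⟩ := ha
  refine ⟨m, d * k, N.mul_mem hd hk, Nat.mul_pos hd0 hk0, ?_⟩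
  push_cast
  rw [div_div]

variable {ι E : Type*} [Fintype ι] [Fintype E] [DecidableEq ι] [DecidableEq E]

theorem greedy (S : ι → Finset E) (hS : ∀ i, (S i).Nonempty) (Bs : Finset (Finset E))
    (hBs : ∀ B ∈ Bs, ∀ i, (B ∩ S i).Nonempty) (N : Submonoid ℕ)
    (H : ∀ (w : E → ℝ) (t : ℝ), (∀ j, 0 ≤ w j) → (∀ B ∈ Bs, t ≤ ∑ j ∈ B, w j) →
      ∃ y : ι → ℝ, (∀ i, 0 ≤ y i) ∧ (∀ j, ∑ i, (if j ∈ S i then y i else 0) ≤ w j) ∧ t ≤ ∑ i, y i) :
    ∀ (n : ℕ) (w : E → ℝ) (t : ℝ), (∀ j, 0 ≤ w j) → (∀ j, w j ∈ Rat' N) → t ∈ Rat' N →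
      (∀ B ∈ Bs, t ≤ ∑ j ∈ B, w j) → (∃ B ∈ Bs, ∑ j ∈ B, w j = t) →
      (∀ i, (∀ B ∈ Bs, ∑ j ∈ B, w j = t → (B ∩ S i).card = 1) →
        ∀ B ∈ Bs, 2 ≤ (B ∩ S i).card → (B ∩ S i).card - 1 ∈ N) →
      (Bs.filter fun B => ∑ j ∈ B, w j ≠ t).card + (univ.filter fun j => 0 < w j).card ≤ n →
      ∃ y : ι → ℝ, (∀ i, 0 ≤ y i) ∧ (∀ i, y i ∈ Rat' N) ∧
        (∀ j, ∑ i, (if j ∈ S i then y i else 0) ≤ w j) ∧ ∑ i, y i = t := by
  intro n
  induction n with
  | zero =>
    intro w t hw hwN htN ht hmin hN hn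
    -- all weights vanish
    have h1 : (univ.filter fun j => 0 < w j).card = 0 := by omega
    rw [card_eq_zero, filter_eq_empty_iff] at h1
    have hw0 : ∀ j, w j = 0 := fun j => le_antisymm (not_lt.1 (h1 (mem_univ j))) (hw j)
    obtain ⟨B, hB, hBt⟩ := hmin
    have ht0 : t = 0 := by rw [← hBt]; exact sum_eq_zero fun j _ => hw0 j
    refine ⟨fun _ => 0, fun _ => le_rfl, fun _ => Rat'.zero N, fun j => ?_, by simp [ht0]⟩
    simp [hw0 j]
  | succ n ih =>
    intro w t hw hwN htN ht hmin hN hn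
    obtain ⟨B0, hB0, hB0t⟩ := hmin
    have ht0 : 0 ≤ t := by rw [← hB0t]; exact sum_nonneg fun j _ => hw j
    rcases ht0.eq_or_lt with ht0 | ht0
    · refine ⟨fun _ => 0, fun _ => le_rfl, fun _ => Rat'.zero N, fun j => ?_, by simp [← ht0]⟩
      simp [hw j]
    obtain ⟨z, hz0, hzw, hzt⟩ := H w t hw ht
    -- a row in the support
    obtain ⟨i, hi⟩ : ∃ i, 0 < z i := by
      by_contra hcon
      push Not at hcon
      have : ∑ i, z i ≤ 0 := sum_nonpos fun i _ => hcon i
      linarith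
    -- complementary slackness
    have hcs : ∀ B ∈ Bs, ∑ j ∈ B, w j = t → (B ∩ S i).card = 1 := by
      intro B hB hBt
      have e1 : ∑ j ∈ B, ∑ i, (if j ∈ S i then z i else 0) = ∑ i, ((B ∩ S i).card : ℝ) * z i := by
        rw [sum_comm]
        refine sum_congr rfl fun i _ => ?_
        rw [← sum_filter, sum_const, nsmul_eq_mul, filter_mem_eq_inter]
      have e2 : ∑ i, ((B ∩ S i).card : ℝ) * z i ≤ t := by
        rw [← e1, ← hBt]; exact sum_le_sum fun j _ => hzw j
      have e3 : ∀ i, z i ≤ ((B ∩ S i).card : ℝ) * z i := by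
        intro i
        have : (1 : ℝ) ≤ ((B ∩ S i).card : ℝ) := by exact_mod_cast (hBs B hB i).card_pos
        nlinarith [hz0 i]
      by_contra hne
      have h2 : 2 ≤ (B ∩ S i).card := by
        have := (hBs B hB i).card_pos
        omega
      have h3 : z i < ((B ∩ S i).card : ℝ) * z i := by
        have : (2 : ℝ) ≤ ((B ∩ S i).card : ℝ) := by exact_mod_cast h2
        nlinarith
      have h4 : ∑ i, z i < ∑ i, ((B ∩ S i).card : ℝ) * z i :=
        sum_lt_sum (fun i _ => e3 i) ⟨i, mem_univ i, h3⟩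
      linarith
    have hwi : ∀ j ∈ S i, 0 < w j := by
      intro j hj
      have h1 := hzw j
      have h2 : z i ≤ ∑ i, (if j ∈ S i then z i else 0) := by
        have := single_le_sum (f := fun i => if j ∈ S i then z i else 0)
          (fun i _ => by split_ifs <;> simp [hz0 i]) (mem_univ i)
        simpa [hj] using this
      linarith
    have hgt : ∀ B ∈ Bs, 2 ≤ (B ∩ S i).card → t < ∑ j ∈ B, w j := by
      intro B hB h2
      rcases (ht B hB).eq_or_lt with h | h
      · have := hcs B hB h.symm; omega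
      · exact h
    -- the step length
    set T1 : Finset ℝ := (S i).image w with hT1
    set T2 : Finset ℝ := (Bs.filter fun B => 2 ≤ (B ∩ S i).card).image
      (fun B => (∑ j ∈ B, w j - t) / (((B ∩ S i).card - 1 : ℕ) : ℝ)) with hT2
    have hne : (T1 ∪ T2).Nonempty := (((hS i).image w)).mono subset_union_left
    set θ : ℝ := (T1 ∪ T2).min' hne with hθ
    have hθmem : θ ∈ T1 ∪ T2 := min'_mem _ _
    have hθle1 : ∀ j ∈ S i, θ ≤ w j := fun j hj =>
      min'_le _ _ (mem_union_left _ (mem_image_of_mem _ hj))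
    have hθle2 : ∀ B ∈ Bs, 2 ≤ (B ∩ S i).card →
        θ ≤ (∑ j ∈ B, w j - t) / (((B ∩ S i).card - 1 : ℕ) : ℝ) := fun B hB h2 =>
      min'_le _ _ (mem_union_right _ (mem_image.2 ⟨B, mem_filter.2 ⟨hB, h2⟩, rfl⟩))
    have hcast : ∀ B : Finset E, 2 ≤ (B ∩ S i).card →
        (((B ∩ S i).card - 1 : ℕ) : ℝ) = ((B ∩ S i).card : ℝ) - 1 ∧
          (0 : ℝ) < (((B ∩ S i).card - 1 : ℕ) : ℝ) := by
      intro B h2
      constructor
      · rw [Nat.cast_sub (by omega)]; simp
      · exact_mod_cast (by omega : 0 < (B ∩ S i).card - 1)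
    have hθpos : 0 < θ := by
      rcases mem_union.1 hθmem with h | h
      · obtain ⟨j, hj, hj2⟩ := mem_image.1 h
        rw [← hj2]; exact hwi j hj
      · obtain ⟨B, hB, hB2⟩ := mem_image.1 h
        obtain ⟨hB, h2⟩ := mem_filter.1 hB
        rw [← hB2]
        exact div_pos (sub_pos.2 (hgt B hB h2)) (hcast B h2).2
    have hθN : θ ∈ Rat' N := by
      rcases mem_union.1 hθmem with h | h
      · obtain ⟨j, hj, hj2⟩ := mem_image.1 h
        rw [← hj2]; exact hwN j
      · obtain ⟨B, hB, hB2⟩ := mem_image.1 h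
        obtain ⟨hB, h2⟩ := mem_filter.1 hB
        rw [← hB2]
        exact Rat'.div_nat (Rat'.sub (Rat'.sum B w fun j _ => hwN j) htN) (hN i hcs B hB h2) (by omega)
    -- new weights
    set w' : E → ℝ := fun j => if j ∈ S i then w j - θ else w j with hw'
    have hsum : ∀ B : Finset E, ∑ j ∈ B, w' j = ∑ j ∈ B, w j - ((B ∩ S i).card : ℝ) * θ := by
      intro B
      have : ∀ j, w' j = w j - (if j ∈ S i then θ else 0) := by
        intro j; simp only [hw']; split_ifs <;> ring
      simp_rw [this]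
      rw [sum_sub_distrib, ← sum_filter, sum_const, nsmul_eq_mul, filter_mem_eq_inter]
    have hw'0 : ∀ j, 0 ≤ w' j := by
      intro j
      simp only [hw']
      split_ifs with h
      · linarith [hθle1 j h]
      · exact hw j
    have hw'N : ∀ j, w' j ∈ Rat' N := by
      intro j
      simp only [hw']
      split_ifs with h
      · exact Rat'.sub (hwN j) hθN
      · exact hwN j
    have hle' : ∀ B ∈ Bs, t - θ ≤ ∑ j ∈ B, w' j := by
      intro B hB
      rw [hsum]
      by_cases h2 : 2 ≤ (B ∩ S i).card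
      · have h3 := hθle2 B hB h2
        obtain ⟨h4, h5⟩ := hcast B h2
        rw [le_div_iff₀ h5, h4] at h3
        linarith
      · have h3 : (B ∩ S i).card = 1 := by
          have := (hBs B hB i).card_pos; omega
        rw [h3]
        have := ht B hB
        push_cast; linarith
    have heq' : ∀ B ∈ Bs, ∑ j ∈ B, w j = t → ∑ j ∈ B, w' j = t - θ := by
      intro B hB hBt
      rw [hsum, hBt, hcs B hB hBt]; push_cast; ring
    have hmin' : ∃ B ∈ Bs, ∑ j ∈ B, w' j = t - θ := ⟨B0, hB0, heq' B0 hB0 hB0t⟩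
    have hN' : ∀ i, (∀ B ∈ Bs, ∑ j ∈ B, w' j = t - θ → (B ∩ S i).card = 1) →
        ∀ B ∈ Bs, 2 ≤ (B ∩ S i).card → (B ∩ S i).card - 1 ∈ N :=
      fun i' hi' => hN i' fun B hB hBt => hi' B hB (heq' B hB hBt)
    have hsub1 : (Bs.filter fun B => ∑ j ∈ B, w' j ≠ t - θ) ⊆ Bs.filter fun B => ∑ j ∈ B, w j ≠ t := by
      intro B hB
      rw [mem_filter] at hB ⊢
      exact ⟨hB.1, fun h => hB.2 (heq' B hB.1 h)⟩
    have hsub2 : (univ.filter fun j => 0 < w' j) ⊆ univ.filter fun j => 0 < w j := by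
      intro j hj
      rw [mem_filter] at hj ⊢
      refine ⟨mem_univ _, ?_⟩
      have := hj.2
      simp only [hw'] at this
      split_ifs at this <;> linarith
    have hlt : (Bs.filter fun B => ∑ j ∈ B, w' j ≠ t - θ).card + (univ.filter fun j => 0 < w' j).card
        < (Bs.filter fun B => ∑ j ∈ B, w j ≠ t).card + (univ.filter fun j => 0 < w j).card := by
      rcases mem_union.1 hθmem with h | h
      · obtain ⟨j, hj, hj2⟩ := mem_image.1 h
        have h1 : (univ.filter fun j => 0 < w' j) ⊂ univ.filter fun j => 0 < w j := by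
          refine (ssubset_iff_of_subset hsub2).2 ⟨j, mem_filter.2 ⟨mem_univ _, hwi j hj⟩, ?_⟩
          simp only [mem_filter, mem_univ, true_and, hw', if_pos hj, hj2, sub_self, lt_irrefl,
            not_false_eq_true]
        have := card_lt_card h1
        have := card_le_card hsub1
        omega
      · obtain ⟨B, hB, hB2⟩ := mem_image.1 h
        obtain ⟨hB, h2⟩ := mem_filter.1 hB
        have h1 : (Bs.filter fun B => ∑ j ∈ B, w' j ≠ t - θ) ⊂ Bs.filter fun B => ∑ j ∈ B, w j ≠ t := by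
          refine (ssubset_iff_of_subset hsub1).2 ⟨B, mem_filter.2 ⟨hB, (hgt B hB h2).ne'⟩, ?_⟩
          rw [mem_filter, not_and, not_not]
          intro _
          obtain ⟨h4, h5⟩ := hcast B h2
          rw [hsum]
          rw [h4] at hB2 h5
          rw [← hB2]
          field_simp
          ring
        have := card_lt_card h1
        have := card_le_card hsub2
        omega
    obtain ⟨y, hy0, hyN, hyw, hyt⟩ := ih w' (t - θ) hw'0 hw'N (Rat'.sub htN hθN) hle' hmin' hN' (by omega)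
    refine ⟨fun k => y k + if k = i then θ else 0, fun k => ?_, fun k => ?_, fun j => ?_, ?_⟩
    · have := hy0 k
      show 0 ≤ y k + if k = i then θ else 0
      split_ifs <;> linarith
    · show y k + (if k = i then θ else 0) ∈ Rat' N
      refine Rat'.add (hyN k) ?_
      split_ifs
      · exact hθN
      · exact Rat'.zero N
    · have h1 : ∀ k, (if j ∈ S k then y k + (if k = i then θ else 0) else 0)
          = (if j ∈ S k then y k else 0) + (if k = i then (if j ∈ S i then θ else 0) else 0) := by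
        intro k
        by_cases hk : k = i
        · subst hk; split_ifs <;> simp
        · simp [hk]
      simp_rw [h1]
      rw [sum_add_distrib, sum_ite_eq' univ i, if_pos (mem_univ i)]
      have h2 := hyw j
      simp only [hw'] at h2
      split_ifs at h2 ⊢ <;> linarith
    · rw [sum_add_distrib, hyt, sum_ite_eq' univ i, if_pos (mem_univ i)]
      ring

end Pool.Agent.Dyadic85
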